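import Mathlib
import Pool.Agent.Q47.Khin.Main

namespace Pool.Agent.Results.MP_83af8b_an.KhintchinMeagre23

open Q47Khin

/-- The space `Ω₀ = {2,3}^ℕ` (product of discrete spaces). -/
abbrev Omega : Type := ℕ → {n : ℕ // n = 2 ∨ n = 3}

/-- The set of all `ω ∈ Ω₀` whose sequence of partial products `ω 0, ω 1 ω 0, …` is an
`L^q`-Khintchin sequence; `K 1` is the set `K_{2,3}` of the problem. -/
def K (q : ENNReal) : Set Omega := {ω | IsLpKhintchin q (prodSeq fun n => (ω n : ℕ))}

/-- The set `K_{2,3}` is meagre in `Ω₀`; even the a priori larger set of the `L^∞`-Khintchin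
sequences is meagre. -/
theorem result (q : ENNReal) : IsMeagre (K q) :=
  meagre (fun n => n = 2 ∨ n = 3) (Or.inl rfl) (Or.inr rfl) (fun n hn => by omega) q

end Pool.Agent.Results.MP_83af8b_an.KhintchinMeagre23
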